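import Pool.Agent.H20.QL.Defs

/-!
UQL module QL (K1): uniform boundedness and quasi-locality (helper80).
-/

set_option autoImplicit false
open Finset Matrix

namespace Pool.Agent.H80.QL

open Pool.Agent.H20.QL

section
variable {V : Type} [Fintype V] [DecidableEq V] {k : ℕ}

/-- `K b` -/
def Kop (H : Matrix V V ℝ) (ε : V → Fin k → Bool) (b : Fin k → V → ℝ) (x : V) : ℝ :=
  pr ε (fun i => H *ᵥ b i) x

/-- `K^* u` -/
def Kst (H : Matrix V V ℝ) (ε : V → Fin k → Bool) (u : V → ℝ) (i : Fin k) : V → ℝ :=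
  H *ᵥ fun x => sg (ε x i) * u x

omit [DecidableEq V] in
theorem symm_dot (H : Matrix V V ℝ) (hH : H.IsSymm) (u v : V → ℝ) :
    u ⬝ᵥ (H *ᵥ v) = (H *ᵥ u) ⬝ᵥ v := by
  rw [Matrix.dotProduct_mulVec, ← Matrix.mulVec_transpose, hH.eq]

omit [DecidableEq V] in
theorem duality (H : Matrix V V ℝ) (hH : H.IsSymm) (ε : V → Fin k → Bool)
    (b : Fin k → V → ℝ) (u : V → ℝ) :
    ∑ x, u x * Kop H ε b x = ∑ i, Kst H ε u i ⬝ᵥ b i := by
  have h1 : ∀ i, Kst H ε u i ⬝ᵥ b i = ∑ x, sg (ε x i) * u x * (H *ᵥ b i) x := by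
    intro i
    unfold Kst
    rw [← symm_dot H hH]
    rfl
  simp only [h1, Kop, pr, Finset.mul_sum]
  rw [Finset.sum_comm]
  apply Finset.sum_congr rfl
  intro i _
  apply Finset.sum_congr rfl
  intro x _
  ring

omit [DecidableEq V] in
theorem sum_sq_eq (a : Fin k → V → ℝ) : ∑ y, sq a y = ∑ i, a i ⬝ᵥ a i := by
  simp only [Pool.Agent.H20.QL.sq, dotProduct]
  rw [Finset.sum_comm]
  apply Finset.sum_congr rfl
  intro i _
  apply Finset.sum_congr rfl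
  intro x _
  ring

omit [Fintype V] [DecidableEq V] in
theorem sq_nonneg' (a : Fin k → V → ℝ) (x : V) : 0 ≤ sq a x :=
  Finset.sum_nonneg fun _ _ => pow_two_nonneg _

/-- boundedness of polynomials on families -/
theorem fam_bound (hB : PolyBoundStmt) {nb : V → Finset V} {Δ D : ℕ} {lam : ℝ}
    {T : Matrix V V ℝ} (hK : Kernel nb Δ D lam T) (p : Polynomial ℝ) (C : ℝ)
    (hp : ∀ t ∈ Set.Icc (0 : ℝ) 1, |p.eval t| ≤ C) (b : Fin k → V → ℝ) :
    ∑ y, sq (fun i => (Polynomial.aeval T p) *ᵥ b i) y ≤ C ^ 2 * ∑ y, sq b y := by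
  rw [sum_sq_eq, sum_sq_eq, Finset.mul_sum]
  apply Finset.sum_le_sum
  intro i _
  exact hB V T hK.tsymm hK.nonneg hK.le_one p C hp (b i)

open Classical in
theorem split_bound {T : Matrix V V ℝ} {t0 : ℝ} {l0 : ℕ} {δ : ℕ → ℝ} {P : Polynomial ℝ}
    {ε : V → Fin k → Bool} (hU : UI T t0 l0 δ k P ε) (L : ℕ) (hL : l0 ≤ L)
    (b : Fin k → V → ℝ) (U1 : Finset V) :
    ∑ x ∈ U1, Kop (Polynomial.aeval T P) ε b x ^ 2 ≤
      2 ^ L * ∑ x ∈ U1, sq (fun i => (Polynomial.aeval T P) *ᵥ b i) x +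
        (δ L + δ k) * ∑ y, sq b y := by
  set a : Fin k → V → ℝ := fun i => (Polynomial.aeval T P) *ᵥ b i with ha
  have h1 := hU.int L hL b a (fun i => rfl)
  have h2 : ∀ x ∈ U1, Kop (Polynomial.aeval T P) ε b x ^ 2 ≤ 2 ^ L * sq a x +
      (if 2 ^ L * sq a x ≤ pr ε a x ^ 2 then pr ε a x ^ 2 else 0) := by
    intro x _
    have h3 : Kop (Polynomial.aeval T P) ε b x = pr ε a x := rfl
    rw [h3]
    have h4 : 0 ≤ 2 ^ L * sq a x := mul_nonneg (by positivity) (sq_nonneg' a x)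
    split_ifs with h
    · linarith
    · push Not at h
      linarith
  have h5 : ∑ x ∈ U1, (if 2 ^ L * sq a x ≤ pr ε a x ^ 2 then pr ε a x ^ 2 else 0) ≤
      ∑ x, (if 2 ^ L * sq a x ≤ pr ε a x ^ 2 then pr ε a x ^ 2 else 0) := by
    apply Finset.sum_le_sum_of_subset_of_nonneg (Finset.subset_univ _)
    intro i _ _
    split_ifs
    · positivity
    · exact le_rfl
  rw [Finset.sum_filter] at h1
  calc ∑ x ∈ U1, Kop (Polynomial.aeval T P) ε b x ^ 2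
      ≤ ∑ x ∈ U1, (2 ^ L * sq a x +
        (if 2 ^ L * sq a x ≤ pr ε a x ^ 2 then pr ε a x ^ 2 else 0)) := Finset.sum_le_sum h2
    _ = 2 ^ L * ∑ x ∈ U1, sq a x +
        ∑ x ∈ U1, (if 2 ^ L * sq a x ≤ pr ε a x ^ 2 then pr ε a x ^ 2 else 0) := by
        rw [Finset.sum_add_distrib, Finset.mul_sum]
    _ ≤ _ := add_le_add le_rfl (h5.trans h1)

theorem K_bound (hB : PolyBoundStmt) {nb : V → Finset V} {Δ D : ℕ} {lam : ℝ}
    {T : Matrix V V ℝ} (hK : Kernel nb Δ D lam T) {t0 : ℝ} {l0 : ℕ} {δ : ℕ → ℝ}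
    {P : Polynomial ℝ} {ε : V → Fin k → Bool} (hU : UI T t0 l0 δ k P ε) (Δ0 : ℝ)
    (hδ : ∀ n, δ n ≤ Δ0) (b : Fin k → V → ℝ) :
    ∑ x, Kop (Polynomial.aeval T P) ε b x ^ 2 ≤ (4 * 2 ^ l0 + 2 * Δ0) * ∑ y, sq b y := by
  have h1 := split_bound hU l0 le_rfl b Finset.univ
  have h2 := fam_bound hB hK P 2 hU.le_two b
  have h3 : 0 ≤ ∑ y, sq b y := Finset.sum_nonneg fun y _ => sq_nonneg' b y
  have h4 := hδ l0
  have h5 := hδ k
  have h6 : (2 : ℝ) ^ l0 * ∑ x, sq (fun i => (Polynomial.aeval T P) *ᵥ b i) x ≤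
      2 ^ l0 * (2 ^ 2 * ∑ y, sq b y) := mul_le_mul_of_nonneg_left h2 (by positivity)
  have h7 : (δ l0 + δ k) * ∑ y, sq b y ≤ (2 * Δ0) * ∑ y, sq b y :=
    mul_le_mul_of_nonneg_right (by linarith) h3
  calc _ ≤ _ := h1
    _ ≤ 2 ^ l0 * (2 ^ 2 * ∑ y, sq b y) + (2 * Δ0) * ∑ y, sq b y := add_le_add h6 h7
    _ = _ := by ring

omit [DecidableEq V] in
theorem dot_self (u : V → ℝ) : u ⬝ᵥ u = ∑ x, u x ^ 2 := by
  simp only [dotProduct]
  exact Finset.sum_congr rfl fun x _ => by ring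

theorem le_of_sq_le {S A : ℝ} (hS : 0 ≤ S) (hA : 0 ≤ A) (h : S ^ 2 ≤ A * S) : S ≤ A := by
  rcases hS.eq_or_lt with h0 | h0
  · rw [← h0]; exact hA
  · have h7 : S * S ≤ A * S := by rw [← pow_two]; exact h
    exact le_of_mul_le_mul_right h7 h0

omit [DecidableEq V] in
/-- the adjoint is bounded -/
theorem Kst_bound {H : Matrix V V ℝ} (hH : H.IsSymm) {ε : V → Fin k → Bool} {C0 : ℝ}
    (hC0 : 0 ≤ C0)
    (hC : ∀ b : Fin k → V → ℝ, ∑ x, Kop H ε b x ^ 2 ≤ C0 * ∑ y, sq b y) (u : V → ℝ) :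
    ∑ y, sq (Kst H ε u) y ≤ C0 * (u ⬝ᵥ u) := by
  set S := ∑ y, sq (Kst H ε u) y with hS
  have h1 : S = ∑ x, u x * Kop H ε (Kst H ε u) x := by
    rw [duality H hH, hS, sum_sq_eq]
  have h2 : S ^ 2 ≤ (∑ x, u x ^ 2) * ∑ x, Kop H ε (Kst H ε u) x ^ 2 := by
    rw [h1]
    exact Finset.sum_mul_sq_le_sq_mul_sq _ _ _
  have h3 := hC (Kst H ε u)
  have h5 : 0 ≤ u ⬝ᵥ u := by rw [dot_self]; positivity
  have hS0 : 0 ≤ S := Finset.sum_nonneg fun y _ => sq_nonneg' _ y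
  rw [← dot_self] at h2
  apply le_of_sq_le hS0 (by positivity)
  calc S ^ 2 ≤ (u ⬝ᵥ u) * (C0 * S) := h2.trans (mul_le_mul_of_nonneg_left h3 h5)
    _ = _ := by ring

/-- the adjoint is local up to `c` -/
theorem Kst_local {H : Matrix V V ℝ} (hH : H.IsSymm) {ε : V → Fin k → Bool} {c : ℝ}
    (U1 U2 : Finset V)
    (hC : ∀ b : Fin k → V → ℝ, (∀ i, ∀ x, x ∉ U2 → b i x = 0) →
      ∑ x ∈ U1, Kop H ε b x ^ 2 ≤ c ^ 2 * ∑ y, sq b y) (u : V → ℝ)
    (hu : ∀ x, x ∉ U1 → u x = 0) :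
    ∑ y ∈ U2, sq (Kst H ε u) y ≤ c ^ 2 * (u ⬝ᵥ u) := by
  set S := ∑ y ∈ U2, sq (Kst H ε u) y with hS
  set b : Fin k → V → ℝ := fun i x => if x ∈ U2 then Kst H ε u i x else 0 with hb
  have hb0 : ∀ i, ∀ x, x ∉ U2 → b i x = 0 := fun i x hx => by simp [hb, hx]
  have hbs : ∑ y, sq b y = S := by
    rw [hS, ← Finset.sum_filter_add_sum_filter_not Finset.univ (fun y => y ∈ U2)]
    have e1 : ∑ y ∈ Finset.univ.filter (fun y => ¬ y ∈ U2), sq b y = 0 := by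
      apply Finset.sum_eq_zero
      intro y hy
      have hy' := (Finset.mem_filter.mp hy).2
      simp [Pool.Agent.H20.QL.sq, hb, hy']
    have e2 : Finset.univ.filter (fun y => y ∈ U2) = U2 := by ext; simp
    rw [e1, add_zero, e2]
    apply Finset.sum_congr rfl
    intro y hy
    simp [Pool.Agent.H20.QL.sq, hb, hy]
  have h1 : S = ∑ x ∈ U1, u x * Kop H ε b x := by
    have e1 : ∑ x, u x * Kop H ε b x = ∑ x ∈ U1, u x * Kop H ε b x := by
      symm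
      apply Finset.sum_subset (Finset.subset_univ _)
      intro x _ hx
      rw [hu x hx, zero_mul]
    rw [← e1, duality H hH, ← hbs, sum_sq_eq]
    apply Finset.sum_congr rfl
    intro i _
    simp only [dotProduct]
    apply Finset.sum_congr rfl
    intro x _
    by_cases hx : x ∈ U2 <;> simp [hb, hx]
  have h2 : S ^ 2 ≤ (∑ x ∈ U1, u x ^ 2) * ∑ x ∈ U1, Kop H ε b x ^ 2 := by
    rw [h1]
    exact Finset.sum_mul_sq_le_sq_mul_sq _ _ _
  have h3 := hC b hb0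
  rw [hbs] at h3
  have h4 : ∑ x ∈ U1, u x ^ 2 ≤ u ⬝ᵥ u := by
    rw [dot_self]
    exact Finset.sum_le_sum_of_subset_of_nonneg (Finset.subset_univ _) fun x _ _ => by positivity
  have h5 : 0 ≤ u ⬝ᵥ u := by rw [dot_self]; positivity
  have hS0 : 0 ≤ S := Finset.sum_nonneg fun y _ => sq_nonneg' _ y
  apply le_of_sq_le hS0 (by positivity)
  calc S ^ 2 ≤ (u ⬝ᵥ u) * (c ^ 2 * S) :=
        h2.trans (mul_le_mul h4 h3 (Finset.sum_nonneg fun x _ => by positivity) h5)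
    _ = _ := by ring

/-- partial Cauchy-Schwarz sums -/
def Bs (p q : Fin k → V → ℝ) (A : Finset V) : ℝ := ∑ x ∈ A, ∑ i, |p i x * q i x|

omit [Fintype V] [DecidableEq V] in
theorem Bs_le (p q : Fin k → V → ℝ) (A : Finset V) {a b : ℝ}
    (hp : ∑ x ∈ A, sq p x ≤ a) (hq : ∑ x ∈ A, sq q x ≤ b) :
    Bs p q A ≤ √a * √b := by
  have h1 : Bs p q A ^ 2 ≤ (∑ x ∈ A, sq p x) * ∑ x ∈ A, sq q x := by
    have e1 : Bs p q A = ∑ z ∈ A ×ˢ (Finset.univ : Finset (Fin k)), |p z.2 z.1| * |q z.2 z.1| := by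
      rw [Finset.sum_product]
      simp only [Bs, abs_mul]
    rw [e1]
    refine (Finset.sum_mul_sq_le_sq_mul_sq _ _ _).trans (le_of_eq ?_)
    rw [Finset.sum_product, Finset.sum_product]
    simp only [sq_abs, Pool.Agent.H20.QL.sq]
  have hp0 : 0 ≤ ∑ x ∈ A, sq p x := Finset.sum_nonneg fun y _ => sq_nonneg' _ y
  have hq0 : 0 ≤ ∑ x ∈ A, sq q x := Finset.sum_nonneg fun y _ => sq_nonneg' _ y
  have h2 : Bs p q A ^ 2 ≤ (√a * √b) ^ 2 := by
    rw [mul_pow, Real.sq_sqrt (hp0.trans hp), Real.sq_sqrt (hq0.trans hq)]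
    exact h1.trans (mul_le_mul hp hq hq0 (hp0.trans hp))
  exact le_of_sq_le_sq h2 (by positivity)

omit [DecidableEq V] in
theorem op_eq [DecidableEq V] (H : Matrix V V ℝ) (hH : H.IsSymm) (ε : V → Fin k → Bool)
    (s : Fin k → Bool) (u v : V → ℝ) :
    u ⬝ᵥ (op (H ^ 2) ε s *ᵥ v) = ∑ i, sg (s i) * (Kst H ε u i ⬝ᵥ Kst H ε v i) := by
  have h1 : ∀ i, Kst H ε u i ⬝ᵥ Kst H ε v i =
      ∑ x, ∑ y, (sg (ε x i) * u x) * ((H ^ 2) x y * (sg (ε y i) * v y)) := by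
    intro i
    unfold Kst
    rw [← symm_dot H hH, Matrix.mulVec_mulVec, ← pow_two]
    simp only [dotProduct, Matrix.mulVec, Finset.mul_sum]
  simp only [h1]
  have h2 : u ⬝ᵥ (op (H ^ 2) ε s *ᵥ v) =
      ∑ x, ∑ y, ∑ i, sg (s i) * ((sg (ε x i) * u x) * ((H ^ 2) x y * (sg (ε y i) * v y))) := by
    simp only [dotProduct, Matrix.mulVec, Finset.mul_sum, op, Finset.sum_mul]
    apply Finset.sum_congr rfl
    intro x _
    apply Finset.sum_congr rfl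
    intro y _
    apply Finset.sum_congr rfl
    intro i _
    ring
  rw [h2, Finset.sum_congr rfl fun x _ => Finset.sum_comm, Finset.sum_comm]
  simp only [Finset.mul_sum]

theorem abs_op_le (H : Matrix V V ℝ) (hH : H.IsSymm) (ε : V → Fin k → Bool)
    (s : Fin k → Bool) (u v : V → ℝ) :
    |u ⬝ᵥ (op (H ^ 2) ε s *ᵥ v)| ≤ Bs (Kst H ε u) (Kst H ε v) Finset.univ := by
  rw [op_eq H hH]
  have hsg : ∀ b : Bool, |sg b| = 1 := by intro b; cases b <;> simp [sg]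
  calc |∑ i, sg (s i) * (Kst H ε u i ⬝ᵥ Kst H ε v i)|
      ≤ ∑ i, |sg (s i) * (Kst H ε u i ⬝ᵥ Kst H ε v i)| := Finset.abs_sum_le_sum_abs _ _
    _ = ∑ i, |∑ x, Kst H ε u i x * Kst H ε v i x| := by
        apply Finset.sum_congr rfl
        intro i _
        rw [abs_mul, hsg, one_mul]
        rfl
    _ ≤ ∑ i, ∑ x, |Kst H ε u i x * Kst H ε v i x| :=
        Finset.sum_le_sum fun i _ => Finset.abs_sum_le_sum_abs _ _
    _ = Bs (Kst H ε u) (Kst H ε v) Finset.univ := by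
        rw [Finset.sum_comm]; rfl

/-! ### locality of polynomials -/

theorem pow_supp {nb : V → Finset V} {Δ D : ℕ} {lam : ℝ}
    {T : Matrix V V ℝ} (hK : Kernel nb Δ D lam T) (r : ℕ) :
    ∀ x y : V, (T ^ r) x y ≠ 0 → y ∈ nball nb r x := by
  induction r with
  | zero =>
    intro x y h
    simp only [pow_zero, Matrix.one_apply, ne_eq, ite_eq_right_iff, one_ne_zero, imp_false,
      not_not] at h
    subst h
    simp [nball]
  | succ r ih =>
    intro x y h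
    rw [pow_succ, Matrix.mul_apply] at h
    obtain ⟨z, _, hz⟩ := Finset.exists_ne_zero_of_sum_ne_zero h
    have h1 : (T ^ r) x z ≠ 0 := left_ne_zero_of_mul hz
    have h2 : T z y ≠ 0 := right_ne_zero_of_mul hz
    simp only [nball, Finset.mem_biUnion]
    exact ⟨z, ih x z h1, hK.supp z y h2⟩

theorem poly_supp {nb : V → Finset V} {Δ D : ℕ} {lam : ℝ}
    {T : Matrix V V ℝ} (hK : Kernel nb Δ D lam T) (hN : NballStmt) (p : Polynomial ℝ)
    (U1 U2 : Finset V) (hd : Disjoint U1 (nset nb p.natDegree U2)) (b : V → ℝ)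
    (hb : ∀ x, x ∉ U2 → b x = 0) (x : V) (hx : x ∈ U1) :
    ((Polynomial.aeval T p) *ᵥ b) x = 0 := by
  have h1 : ∀ y, (Polynomial.aeval T p) x y * b y = 0 := by
    intro y
    by_cases hy : y ∈ U2
    · have h2 : (Polynomial.aeval T p) x y = 0 := by
        rw [Polynomial.aeval_eq_sum_range]
        rw [Matrix.sum_apply]
        apply Finset.sum_eq_zero
        intro r hr
        rw [Matrix.smul_apply]
        by_contra hne
        have h3 : (T ^ r) x y ≠ 0 := fun h => hne (by rw [h, smul_zero])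
        have h4 := pow_supp hK r x y h3
        have h5 := (hN V nb).1 hK.symm r x y h4
        have h6 := (hN V nb).2.2.2 hK.refl r p.natDegree y
          (by have := Finset.mem_range.mp hr; omega) h5
        exact Finset.disjoint_left.mp hd hx (Finset.mem_biUnion.mpr ⟨y, hy, h6⟩)
      rw [h2, zero_mul]
    · rw [hb y hy, mul_zero]
  simp only [Matrix.mulVec, dotProduct]
  exact Finset.sum_eq_zero fun y _ => h1 y

end

theorem local_param (hP : PolyStmt) (hB : PolyBoundStmt) (hN : NballStmt) (t0 : ℝ)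
    (h0 : 0 < t0) (h1 : t0 < 1) (l0 : ℕ) (δ : ℕ → ℝ)
    (hδ : Filter.Tendsto δ Filter.atTop (nhds 0)) (c : ℝ) (hc : 0 < c) :
    ∃ d : ℕ, ∀ᶠ k : ℕ in Filter.atTop, ∀ (V : Type) [Fintype V] [DecidableEq V]
      (nb : V → Finset V) (Δ D : ℕ) (lam : ℝ) (T : Matrix V V ℝ), Kernel nb Δ D lam T →
      ∀ (P : Polynomial ℝ) (ε : V → Fin k → Bool), UI T t0 l0 δ k P ε →
      ∀ U1 U2 : Finset V, Disjoint U1 (nset nb d U2) → ∀ b : Fin k → V → ℝ,
      (∀ i, ∀ x, x ∉ U2 → b i x = 0) →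
      ∑ x ∈ U1, Kop (Polynomial.aeval T P) ε b x ^ 2 ≤ c ^ 2 * ∑ y, sq b y := by
  have hc4 : 0 < c ^ 2 / 4 := by positivity
  obtain ⟨L, hL1, hL2⟩ := ((hδ.eventually_lt_const hc4).and
    (Filter.eventually_ge_atTop l0)).exists
  set η : ℝ := c / (4 * 2 ^ L) with hη
  have hη0 : 0 < η := by positivity
  obtain ⟨p, hp⟩ := (hP t0 h0 h1).1 η hη0
  refine ⟨p.natDegree, ?_⟩
  obtain ⟨k1, hk1⟩ := exists_nat_gt (1 / η)
  filter_upwards [hδ.eventually_lt_const hc4, Filter.eventually_ge_atTop (max k1 1)] with k hk2 hk3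
  intro V _ _ nb Δ D lam T hK P ε hU U1 U2 hd b hb
  have hkpos : (0 : ℝ) < k := by
    exact_mod_cast (lt_of_lt_of_le Nat.zero_lt_one ((le_max_right _ _).trans hk3))
  have hkη : 1 / (k : ℝ) ≤ η := by
    have h3 : 1 / η < k := lt_of_lt_of_le hk1 (by exact_mod_cast (le_max_left _ _).trans hk3)
    rw [div_lt_iff₀ hη0] at h3
    rw [div_le_iff₀ hkpos]
    linarith
  have hs := split_bound hU L hL2 b U1
  have hdiff := fam_bound hB hK (P - p) (2 * η) (fun t ht => by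
    have e1 := hU.cut t ht
    have e2 := hp t ht
    rw [Polynomial.eval_sub]
    calc |P.eval t - p.eval t| = |(P.eval t - cut t0 t) - (p.eval t - cut t0 t)| := by ring_nf
      _ ≤ |P.eval t - cut t0 t| + |p.eval t - cut t0 t| := abs_sub _ _
      _ ≤ 2 * η := by linarith) b
  have hU1 : ∑ x ∈ U1, sq (fun i => (Polynomial.aeval T P) *ᵥ b i) x ≤
      ∑ y, sq (fun i => (Polynomial.aeval T (P - p)) *ᵥ b i) y := by
    calc ∑ x ∈ U1, sq (fun i => (Polynomial.aeval T P) *ᵥ b i) x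
        = ∑ x ∈ U1, sq (fun i => (Polynomial.aeval T (P - p)) *ᵥ b i) x := by
          apply Finset.sum_congr rfl
          intro x hx
          simp only [Pool.Agent.H20.QL.sq]
          apply Finset.sum_congr rfl
          intro i _
          have := poly_supp hK hN p U1 U2 hd (b i) (hb i) x hx
          rw [map_sub, Matrix.sub_mulVec, Pi.sub_apply, this, sub_zero]
      _ ≤ _ := Finset.sum_le_sum_of_subset_of_nonneg (Finset.subset_univ _)
          fun x _ _ => sq_nonneg' _ x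
  have hb0 : 0 ≤ ∑ y, sq b y := Finset.sum_nonneg fun y _ => sq_nonneg' b y
  have h2L : (1 : ℝ) ≤ 2 ^ L := one_le_pow₀ (by norm_num)
  have hηc : 2 ^ L * (2 * η) ^ 2 ≤ c ^ 2 / 4 := by
    have e1 : 2 ^ L * (2 * η) ^ 2 = c ^ 2 / 4 / 2 ^ L := by
      rw [hη]; field_simp; ring
    rw [e1]
    exact div_le_self (by positivity) h2L
  calc ∑ x ∈ U1, Kop (Polynomial.aeval T P) ε b x ^ 2
      ≤ 2 ^ L * ∑ x ∈ U1, sq (fun i => (Polynomial.aeval T P) *ᵥ b i) x +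
        (δ L + δ k) * ∑ y, sq b y := hs
    _ ≤ 2 ^ L * ((2 * η) ^ 2 * ∑ y, sq b y) + (c ^ 2 / 4 + c ^ 2 / 4) * ∑ y, sq b y := by
        apply add_le_add
        · exact mul_le_mul_of_nonneg_left (hU1.trans hdiff) (by positivity)
        · exact mul_le_mul_of_nonneg_right (by linarith) hb0
    _ = (2 ^ L * (2 * η) ^ 2 + (c ^ 2 / 4 + c ^ 2 / 4)) * ∑ y, sq b y := by ring
    _ ≤ c ^ 2 * ∑ y, sq b y := by
        apply mul_le_mul_of_nonneg_right _ hb0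
        have : 0 ≤ c ^ 2 := by positivity
        linarith

theorem ql (hP : PolyStmt) (hB : PolyBoundStmt) (hN : NballStmt) : QLStmt := by
  intro t0 h0 h1 l0 δ hδ0 hδ
  obtain ⟨Δ0, hΔ0⟩ := hδ.bddAbove_range
  have hΔ : ∀ n, δ n ≤ Δ0 := fun n => hΔ0 ⟨n, rfl⟩
  have hΔpos : 0 ≤ Δ0 := (hδ0 0).trans (hΔ 0)
  set C0 : ℝ := 4 * 2 ^ l0 + 2 * Δ0 with hC0
  have hC0pos : 0 < C0 := by positivity
  have hsC : 0 < √C0 := Real.sqrt_pos.mpr hC0pos
  have hloc := fun m : ℕ => local_param hP hB hN t0 h0 h1 l0 δ hδ (1 / (2 * √C0 * (m + 1)))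
    (by positivity)
  choose d hd using hloc
  refine ⟨C0, fun m => 2 * d m, hC0pos.le, fun n => ?_⟩
  have hall : ∀ᶠ k : ℕ in Filter.atTop, ∀ m ∈ Finset.range (n + 1),
      ∀ (V : Type) [Fintype V] [DecidableEq V]
      (nb : V → Finset V) (Δ D : ℕ) (lam : ℝ) (T : Matrix V V ℝ), Kernel nb Δ D lam T →
      ∀ (P : Polynomial ℝ) (ε : V → Fin k → Bool), UI T t0 l0 δ k P ε →
      ∀ U1 U2 : Finset V, Disjoint U1 (nset nb (d m) U2) → ∀ b : Fin k → V → ℝ,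
      (∀ i, ∀ x, x ∉ U2 → b i x = 0) →
      ∑ x ∈ U1, Kop (Polynomial.aeval T P) ε b x ^ 2 ≤
        (1 / (2 * √C0 * (m + 1))) ^ 2 * ∑ y, sq b y := by
    rw [Filter.eventually_all_finset]
    exact fun m _ => hd m
  filter_upwards [hall] with k hk
  intro V _ _ nb Δ D lam T hK P ε hU s
  set H := Polynomial.aeval T P with hH
  have hHs : H.IsSymm := by
    rw [Matrix.IsSymm, hH, Polynomial.aeval_eq_sum_range, Matrix.transpose_sum]
    apply Finset.sum_congr rfl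
    intro r _
    rw [Matrix.transpose_smul, Matrix.transpose_pow, hK.tsymm.eq]
  have hKb : ∀ b : Fin k → V → ℝ, ∑ x, Kop H ε b x ^ 2 ≤ C0 * ∑ y, sq b y :=
    fun b => K_bound hB hK hU Δ0 hΔ b
  have hKs : ∀ u : V → ℝ, ∑ y, sq (Kst H ε u) y ≤ C0 * (u ⬝ᵥ u) :=
    fun u => Kst_bound hHs hC0pos.le hKb u
  have hsub : ∀ (A : Finset V) (u : V → ℝ), ∑ y ∈ A, sq (Kst H ε u) y ≤ C0 * (u ⬝ᵥ u) :=
    fun A u => (Finset.sum_le_sum_of_subset_of_nonneg (Finset.subset_univ _)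
      fun x _ _ => sq_nonneg' _ x).trans (hKs u)
  have hdot : ∀ u : V → ℝ, 0 ≤ u ⬝ᵥ u := fun u => by rw [dot_self]; positivity
  refine ⟨fun u v => ?_, fun m hm1 hmn U1 U2 hdis u v hu hv => ?_⟩
  · calc |u ⬝ᵥ (op (H ^ 2) ε s *ᵥ v)| ≤ Bs (Kst H ε u) (Kst H ε v) Finset.univ :=
          abs_op_le H hHs ε s u v
      _ ≤ √(C0 * (u ⬝ᵥ u)) * √(C0 * (v ⬝ᵥ v)) := Bs_le _ _ _ (hKs u) (hKs v)
      _ = C0 * √(u ⬝ᵥ u) * √(v ⬝ᵥ v) := by
          rw [Real.sqrt_mul hC0pos.le, Real.sqrt_mul hC0pos.le]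
          calc √C0 * √(u ⬝ᵥ u) * (√C0 * √(v ⬝ᵥ v)) =
              (√C0 * √C0) * √(u ⬝ᵥ u) * √(v ⬝ᵥ v) := by ring
            _ = _ := by rw [Real.mul_self_sqrt hC0pos.le]
  · set c : ℝ := 1 / (2 * √C0 * (m + 1)) with hc
    have hcpos : 0 < c := by positivity
    have hk' := hk m (Finset.mem_range.mpr (by omega)) V nb Δ D lam T hK P ε hU
    set N := nset nb (d m) U2 with hN2
    -- `U1` is away from `N`
    have hdis1 : Disjoint U1 (nset nb (d m) N) := by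
      rw [Finset.disjoint_left]
      intro x hx hx2
      obtain ⟨y, hy, hxy⟩ := Finset.mem_biUnion.mp hx2
      obtain ⟨z, hz, hyz⟩ := Finset.mem_biUnion.mp hy
      have h3 := (hN V nb).2.2.1 (d m) (d m) z y x hyz hxy
      refine Finset.disjoint_left.mp hdis hx (Finset.mem_biUnion.mpr ⟨z, hz, ?_⟩)
      rw [two_mul]; exact h3
    -- `U2` is away from the complement of `N`
    have hdis2 : Disjoint U2 (nset nb (d m) Nᶜ) := by
      rw [Finset.disjoint_left]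
      intro x hx hx2
      obtain ⟨y, hy, hxy⟩ := Finset.mem_biUnion.mp hx2
      rw [Finset.mem_compl] at hy
      exact hy (Finset.mem_biUnion.mpr ⟨x, hx, (hN V nb).1 hK.symm (d m) y x hxy⟩)
    have hl1 : ∑ y ∈ N, sq (Kst H ε u) y ≤ c ^ 2 * (u ⬝ᵥ u) :=
      Kst_local hHs U1 N (fun b hb => hk' U1 N hdis1 b hb) u hu
    have hl2 : ∑ y ∈ Nᶜ, sq (Kst H ε v) y ≤ c ^ 2 * (v ⬝ᵥ v) :=
      Kst_local hHs U2 Nᶜ (fun b hb => hk' U2 Nᶜ hdis2 b hb) v hv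
    calc |u ⬝ᵥ (op (H ^ 2) ε s *ᵥ v)| ≤ Bs (Kst H ε u) (Kst H ε v) Finset.univ :=
          abs_op_le H hHs ε s u v
      _ = Bs (Kst H ε u) (Kst H ε v) N + Bs (Kst H ε u) (Kst H ε v) Nᶜ := by
          unfold Bs
          rw [Finset.sum_add_sum_compl]
      _ ≤ √(c ^ 2 * (u ⬝ᵥ u)) * √(C0 * (v ⬝ᵥ v)) + √(C0 * (u ⬝ᵥ u)) * √(c ^ 2 * (v ⬝ᵥ v)) :=
          add_le_add (Bs_le _ _ _ hl1 (hsub N v)) (Bs_le _ _ _ (hsub Nᶜ u) hl2)
      _ = (2 * c * √C0) * √(u ⬝ᵥ u) * √(v ⬝ᵥ v) := by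
          rw [Real.sqrt_mul hC0pos.le, Real.sqrt_mul hC0pos.le, Real.sqrt_mul (by positivity),
            Real.sqrt_mul (by positivity), Real.sqrt_sq hcpos.le]
          ring
      _ = 1 / ((m : ℝ) + 1) * √(u ⬝ᵥ u) * √(v ⬝ᵥ v) := by
          have : 2 * c * √C0 = 1 / ((m : ℝ) + 1) := by
            rw [hc]; field_simp
          rw [this]
      _ ≤ 1 / (m : ℝ) * √(u ⬝ᵥ u) * √(v ⬝ᵥ v) := by
          have hm0 : (0 : ℝ) < m := by exact_mod_cast hm1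
          have : 1 / ((m : ℝ) + 1) ≤ 1 / m := one_div_le_one_div_of_le hm0 (by linarith)
          gcongr

end Pool.Agent.H80.QL
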